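import Pool.Agent.H979.FR.Stm

set_option autoImplicit false

/-!
FR CELL (helper215 for helper979): Voronoi partition of an infinite graph into bounded cells.
-/

namespace Pool.Agent.H215

open Pool.Agent.H979.FR

namespace FRCELL

variable {V : Type} {G : SimpleGraph V}

/-- maximal separated sets -/
theorem exists_net [Nonempty V] (G : SimpleGraph V) (r : ℕ) : ∃ Z : Set V, Z.Nonempty ∧
    (∀ a ∈ Z, ∀ b ∈ Z, a ≠ b → r < G.dist a b) ∧ ∀ v, ∃ z ∈ Z, G.dist v z ≤ r := by
  obtain ⟨Z, hZ⟩ := zorn_subset {Z : Set V | Z.Pairwise fun a b => r < G.dist a b} (by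
    intro c hc hch
    refine ⟨⋃₀ c, ?_, fun s hs => Set.subset_sUnion_of_mem hs⟩
    show (⋃₀ c).Pairwise _
    rw [Set.pairwise_sUnion hch.directedOn]
    intro a ha
    exact hc ha)
  have h1 : Z.Pairwise fun a b => r < G.dist a b := hZ.prop
  have h2 : ∀ v, ∃ z ∈ Z, G.dist v z ≤ r := by
    intro v
    by_contra hcon
    push Not at hcon
    have h3 : (insert v Z).Pairwise fun a b => r < G.dist a b := by
      intro a ha b hb hab
      rcases Set.mem_insert_iff.1 ha with rfl | ha'
      · rcases Set.mem_insert_iff.1 hb with rfl | hb'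
        · exact absurd rfl hab
        · exact hcon b hb'
      · rcases Set.mem_insert_iff.1 hb with rfl | hb'
        · rw [SimpleGraph.dist_comm]
          exact hcon a ha'
        · exact h1 ha' hb' hab
    have h4 : insert v Z ⊆ Z := hZ.le_of_ge h3 (Set.subset_insert v Z)
    have h5 : v ∈ Z := h4 (Set.mem_insert v Z)
    have h6 := hcon v h5
    rw [SimpleGraph.dist_self] at h6
    omega
  obtain ⟨z, hz, -⟩ := h2 (Classical.arbitrary V)
  exact ⟨Z, ⟨z, hz⟩, fun a ha b hb hab => h1 ha hb hab, h2⟩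

/-- the first step of a shortest walk -/
theorem exists_step (hG : G.Connected) {v z : V} (h : 0 < G.dist v z) :
    ∃ u, G.Adj v u ∧ G.dist u z + 1 = G.dist v z := by
  obtain ⟨p, hp⟩ := hG.exists_walk_length_eq_dist v z
  cases p with
  | nil => simp at h
  | @cons _ u _ hvu q =>
    refine ⟨u, hvu, ?_⟩
    have h1 : G.dist u z ≤ q.length := SimpleGraph.dist_le q
    have h2 : q.length + 1 = G.dist v z := by
      rw [← hp, SimpleGraph.Walk.length_cons]
    have h3 : G.dist v z ≤ G.dist v u + G.dist u z := hG.dist_triangle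
    have h4 : G.dist v u = 1 := SimpleGraph.dist_eq_one_iff_adj.2 hvu
    omega

end FRCELL

open FRCELL in
theorem fr_cell (hB : S_BALL) : S_CELL := by
  classical
  intro V _ G _ hG M
  obtain ⟨hfin, hinf, -⟩ := hB V G hG
  have hinf' := hinf inferInstance
  set ρ : ℕ := max M 1 with hρ
  have hρ1 : 1 ≤ ρ := le_max_right _ _
  have hρM : M ≤ ρ := le_max_left _ _
  obtain ⟨Z, ⟨z₀, hz₀⟩, hZ1, hZ2⟩ := exists_net G (2 * ρ)
  -- the distance to `Z`
  let δ : V → ℕ := fun v => sInf {n | ∃ z ∈ Z, G.dist v z = n}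
  have hδ1 : ∀ v, ∃ z ∈ Z, G.dist v z = δ v := by
    intro v
    have h : ({n | ∃ z ∈ Z, G.dist v z = n} : Set ℕ).Nonempty := ⟨_, z₀, hz₀, rfl⟩
    exact Nat.sInf_mem h
  have hδ2 : ∀ v, ∀ z ∈ Z, δ v ≤ G.dist v z := fun v z hz => Nat.sInf_le ⟨z, hz, rfl⟩
  have hδ3 : ∀ v, δ v ≤ 2 * ρ := by
    intro v
    obtain ⟨z, hz, h⟩ := hZ2 v
    exact (hδ2 v z hz).trans h
  have hδ0 : ∀ v, δ v = 0 → v ∈ Z := by
    intro v hv
    obtain ⟨z, hz, h⟩ := hδ1 v
    rw [hv] at h
    rw [hG.dist_eq_zero_iff.1 h]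
    exact hz
  have hδZ : ∀ v ∈ Z, δ v = 0 := by
    intro v hv
    have := hδ2 v v hv
    rw [SimpleGraph.dist_self] at this
    omega
  have hstep : ∀ v, ∃ u, (0 < δ v → G.Adj v u ∧ δ u + 1 = δ v) ∧ (δ v = 0 → u = v) := by
    intro v
    by_cases h : 0 < δ v
    · obtain ⟨z, hz, hvz⟩ := hδ1 v
      obtain ⟨u, hu, huz⟩ := exists_step hG (v := v) (z := z) (by omega)
      refine ⟨u, fun _ => ⟨hu, ?_⟩, fun h0 => by omega⟩
      have h1 := hδ2 u z hz
      obtain ⟨z', hz', huz'⟩ := hδ1 u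
      have h2 := hδ2 v z' hz'
      have h3 : G.dist v z' ≤ G.dist v u + G.dist u z' := hG.dist_triangle
      have h4 : G.dist v u = 1 := SimpleGraph.dist_eq_one_iff_adj.2 hu
      omega
    · exact ⟨v, fun h' => absurd h' h, fun _ => rfl⟩
  choose par hpar1 hpar0 using hstep
  -- iterates
  have hit : ∀ (k : ℕ) (v : V), δ (par^[k] v) = δ v - k ∧
      G.dist v (par^[k] v) + δ (par^[k] v) ≤ δ v := by
    intro k v
    induction k with
    | zero => simp
    | succ k ih =>
      obtain ⟨ih1, ih2⟩ := ih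
      rw [Function.iterate_succ_apply']
      set u := par^[k] v with hu
      by_cases h : 0 < δ u
      · obtain ⟨h1, h2⟩ := hpar1 u h
        have h3 : G.dist v (par u) ≤ G.dist v u + G.dist u (par u) := hG.dist_triangle
        have h4 : G.dist u (par u) = 1 := SimpleGraph.dist_eq_one_iff_adj.2 h1
        constructor <;> omega
      · rw [hpar0 u (by omega)]
        constructor <;> omega
  let π : V → V := fun v => par^[2 * ρ] v
  have hπZ : ∀ v, π v ∈ Z := by
    intro v
    apply hδ0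
    have h1 := (hit (2 * ρ) v).1
    have h2 := hδ3 v
    show δ (par^[2 * ρ] v) = 0
    omega
  have hπd : ∀ v, G.dist v (π v) ≤ δ v := by
    intro v
    have h1 := (hit (2 * ρ) v).2
    show G.dist v (par^[2 * ρ] v) ≤ δ v
    omega
  have hπpar : ∀ v, π (par v) = π v := by
    intro v
    show par^[2 * ρ] (par v) = par^[2 * ρ] v
    rw [← Function.iterate_succ_apply, Function.iterate_succ_apply']
    exact hpar0 _ (hδZ _ (hπZ v))
  have hnear : ∀ z ∈ Z, ∀ y, G.dist z y ≤ ρ → π y = z := by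
    intro z hz y hy
    by_contra hne
    have h1 := hZ1 (π y) (hπZ y) z hz hne
    have h2 := hπd y
    have h3 := hδ2 y z hz
    have h4 : G.dist (π y) z ≤ G.dist (π y) y + G.dist y z := hG.dist_triangle
    have h5 : G.dist (π y) y = G.dist y (π y) := SimpleGraph.dist_comm
    have h6 : G.dist y z = G.dist z y := SimpleGraph.dist_comm
    omega
  have hL : ∀ x y, π x = π y → G.dist x y ≤ 4 * ρ := by
    intro x y h
    have h1 : G.dist x y ≤ G.dist x (π x) + G.dist (π x) y := hG.dist_triangle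
    have h2 := hπd x
    have h3 := hπd y
    have h4 : G.dist (π x) y = G.dist y (π y) := by rw [h, SimpleGraph.dist_comm]
    have h5 := hδ3 x
    have h6 := hδ3 y
    omega
  have hcf : ∀ x, {y | π y = π x}.Finite := by
    intro x
    refine (hfin x (4 * ρ)).subset ?_
    intro y hy
    exact hL x y (Eq.symm hy)
  refine ⟨π, 4 * ρ, hL, hcf, ?_, ?_⟩
  · intro x
    have h1 := (hinf' (π x) ρ).2
    have h2 : ball G (π x) ρ ⊆ {y | π y = π x} := fun y hy => hnear (π x) (hπZ x) y hy
    have h3 := Set.ncard_le_ncard h2 (hcf x)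
    omega
  · intro x
    by_cases h : 0 < δ x
    · exact ⟨par x, (hpar1 x h).1, hπpar x⟩
    · have hxZ : x ∈ Z := hδ0 x (by omega)
      obtain ⟨y, hy⟩ := (hinf' x 1).1
      have hadj : G.Adj x y := SimpleGraph.dist_eq_one_iff_adj.1 hy
      refine ⟨y, hadj, ?_⟩
      rw [hnear x hxZ y (by omega), hnear x hxZ x (by rw [SimpleGraph.dist_self]; omega)]

end Pool.Agent.H215
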