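import Pool.Agent.H867.FT.Gen5

/-!
# Northcott-Rees: shortening a reduction (project FT of helper867, job RED)
-/

set_option autoImplicit false

namespace Pool.Agent.H215.FTRED

open MvPolynomial
open Pool.Agent.H867.FT (IsRed AnInd S_RED)

/-- monomials evaluated at elements of an ideal -/
theorem mono_mem {S : Type} [CommRing S] {s : ℕ} (J : Ideal S) (u : Fin s → S) (hu : ∀ i, u i ∈ J)
    (n : Fin s →₀ ℕ) : ∏ i, u i ^ n i ∈ J ^ (∑ i, n i) := by
  rw [← Finset.prod_pow_eq_pow_sum]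
  exact Ideal.prod_mem_prod fun i _ => Ideal.pow_mem_pow (hu i) _

theorem pow_diff {S : Type} [CommRing S] (J J' : Ideal S) (_hJ : J' ≤ J) (a b : S) (ha : a ∈ J)
    (hb : b ∈ J) (h : a - b ∈ J') (n : ℕ) (y : S) (hy : y ∈ J) :
    y * (a ^ n - b ^ n) ∈ J' * J ^ n := by
  induction n with
  | zero => simp
  | succ n ih =>
    have e : y * (a ^ (n + 1) - b ^ (n + 1)) = (a - b) * (y * a ^ n) + b * (y * (a ^ n - b ^ n)) := by
      ring
    rw [e]
    refine Ideal.add_mem _ ?_ ?_
    · refine Ideal.mul_mem_mul h ?_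
      rw [pow_succ', ]
      exact Ideal.mul_mem_mul hy (Ideal.pow_mem_pow ha n)
    · have : J' * J ^ (n + 1) = J * (J' * J ^ n) := by
        rw [pow_succ]
        ring
      rw [this]
      exact Ideal.mul_mem_mul hb ih

theorem prod_diff {S : Type} [CommRing S] {s : ℕ} (J J' : Ideal S) (hJ : J' ≤ J) (u v : Fin s → S)
    (hu : ∀ i, u i ∈ J) (hv : ∀ i, v i ∈ J) (h : ∀ i, u i - v i ∈ J') (n : Fin s → ℕ)
    (A : Finset (Fin s)) (y : S) (hy : y ∈ J) :
    y * (∏ i ∈ A, u i ^ n i - ∏ i ∈ A, v i ^ n i) ∈ J' * J ^ (∑ i ∈ A, n i) := by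
  classical
  induction A using Finset.induction_on with
  | empty => simp
  | insert i A hi ih =>
    rw [Finset.prod_insert hi, Finset.prod_insert hi, Finset.sum_insert hi]
    have hA : ∏ j ∈ A, u j ^ n j ∈ J ^ (∑ j ∈ A, n j) := by
      rw [← Finset.prod_pow_eq_pow_sum]
      exact Ideal.prod_mem_prod fun i _ => Ideal.pow_mem_pow (hu i) _
    have e : y * (u i ^ n i * ∏ j ∈ A, u j ^ n j - v i ^ n i * ∏ j ∈ A, v j ^ n j)
        = (y * (u i ^ n i - v i ^ n i)) * ∏ j ∈ A, u j ^ n j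
          + v i ^ n i * (y * (∏ j ∈ A, u j ^ n j - ∏ j ∈ A, v j ^ n j)) := by ring
    rw [e]
    refine Ideal.add_mem _ ?_ ?_
    · have e2 : J' * J ^ (n i + ∑ j ∈ A, n j) = (J' * J ^ n i) * J ^ (∑ j ∈ A, n j) := by
        rw [pow_add, mul_assoc]
      rw [e2]
      exact Ideal.mul_mem_mul (pow_diff J J' hJ _ _ (hu i) (hv i) (h i) _ y hy) hA
    · have e2 : J' * J ^ (n i + ∑ j ∈ A, n j) = J ^ n i * (J' * J ^ (∑ j ∈ A, n j)) := by
        rw [pow_add]
        ring
      rw [e2]
      exact Ideal.mul_mem_mul (Ideal.pow_mem_pow (hv i) _) ih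

theorem deg_eq {S : Type} [CommRing S] {s D : ℕ} {F : MvPolynomial (Fin s) S}
    (hF : F.IsHomogeneous D) {n : Fin s →₀ ℕ} (hn : n ∈ F.support) : ∑ i, n i = D := by
  have h := hF (mem_support_iff.1 hn)
  rw [← h, Finsupp.weight_apply, Finsupp.sum_fintype]
  · simp
  · simp

/-- the difference of the values of a form -/
theorem eval_diff {S : Type} [CommRing S] {s D : ℕ} {F : MvPolynomial (Fin s) S}
    (hF : F.IsHomogeneous D) (J J' : Ideal S) (hJ : J' ≤ J) (u v : Fin s → S)
    (hu : ∀ i, u i ∈ J) (hv : ∀ i, v i ∈ J) (h : ∀ i, u i - v i ∈ J') (y : S) (hy : y ∈ J) :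
    y * (eval u F - eval v F) ∈ J' * J ^ D := by
  rw [eval_eq', eval_eq', ← Finset.sum_sub_distrib, Finset.mul_sum]
  refine Ideal.sum_mem _ fun n hn => ?_
  have e : y * (F.coeff n * ∏ i, u i ^ n i - F.coeff n * ∏ i, v i ^ n i)
      = F.coeff n * (y * (∏ i, u i ^ n i - ∏ i, v i ^ n i)) := by ring
  rw [e, ← deg_eq hF hn]
  exact Ideal.mul_mem_left _ _ (prod_diff J J' hJ u v hu hv h n Finset.univ y hy)

theorem eval_scale {S : Type} [CommRing S] {s D : ℕ} {F : MvPolynomial (Fin s) S}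
    (hF : F.IsHomogeneous D) (a : S) (w : Fin s → S) :
    eval (fun i => a * w i) F = a ^ D * eval w F := by
  rw [eval_eq', eval_eq', Finset.mul_sum]
  refine Finset.sum_congr rfl fun n hn => ?_
  have e : ∏ i, (a * w i) ^ n i = a ^ D * ∏ i, w i ^ n i := by
    rw [← deg_eq hF hn, ← Finset.prod_pow_eq_pow_sum, ← Finset.prod_mul_distrib]
    exact Finset.prod_congr rfl fun i _ => mul_pow _ _ _
  rw [e]
  ring

/-- powers of a sum of ideals -/
theorem pow_sup {S : Type} [CommRing S] (J J' : Ideal S) (z : S) (hJ : J = J' ⊔ Ideal.span {z})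
    (D : ℕ) : J ^ (D + 1) ≤ J' * J ^ D ⊔ Ideal.span {z ^ D} * J := by
  induction D with
  | zero => simp
  | succ D ih =>
    have hz : Ideal.span {z} ≤ J := hJ ▸ le_sup_right
    have hzD : Ideal.span {z ^ D} ≤ J ^ D := by
      rw [← Ideal.span_singleton_pow]
      exact Ideal.pow_right_mono hz D
    calc J ^ (D + 1 + 1) = J ^ (D + 1) * J := pow_succ _ _
      _ ≤ (J' * J ^ D ⊔ Ideal.span {z ^ D} * J) * J := Ideal.mul_mono_left ih
      _ = J' * J ^ D * J ⊔ Ideal.span {z ^ D} * J * J := Ideal.sup_mul _ _ _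
      _ ≤ J' * J ^ (D + 1) ⊔ Ideal.span {z ^ (D + 1)} * J := by
        refine sup_le ?_ ?_
        · rw [mul_assoc, ← pow_succ]
          exact le_sup_left
        · calc Ideal.span {z ^ D} * J * J
              = Ideal.span {z ^ D} * J * (J' ⊔ Ideal.span {z}) := by rw [← hJ]
            _ = Ideal.span {z ^ D} * J * J' ⊔ Ideal.span {z ^ D} * J * Ideal.span {z} :=
              Ideal.mul_sup _ _ _
            _ ≤ _ := by
              refine sup_le_sup ?_ ?_
              · calc Ideal.span {z ^ D} * J * J' ≤ J ^ D * J * J' :=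
                    Ideal.mul_mono_left (Ideal.mul_mono_left hzD)
                  _ = J' * J ^ (D + 1) := by rw [pow_succ]; ring
              · refine le_of_eq ?_
                rw [pow_succ, ← Ideal.span_singleton_mul_span_singleton]
                ring

/-- a point where the form does not vanish -/
theorem point {S : Type} [CommRing S] [IsLocalRing S] [Infinite (IsLocalRing.ResidueField S)]
    {m : ℕ} (F : MvPolynomial (Fin (m + 1)) S) (n : Fin (m + 1) →₀ ℕ)
    (hn : F.coeff n ∉ IsLocalRing.maximalIdeal S) :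
    ∃ a : Fin (m + 1) → S, IsUnit (a 0) ∧ IsUnit (eval a F) := by
  have h1 : map (IsLocalRing.residue S) F ≠ 0 := by
    intro h
    apply hn
    have h2 := congrArg (coeff n) h
    rw [coeff_map, coeff_zero] at h2
    exact (IsLocalRing.residue_eq_zero_iff _).1 h2
  have h2 : map (IsLocalRing.residue S) F * X 0 ≠ 0 := mul_ne_zero h1 (X_ne_zero 0)
  obtain ⟨b, hb⟩ : ∃ b, eval b (map (IsLocalRing.residue S) F * X 0) ≠ 0 := by
    by_contra hcon
    push Not at hcon
    exact h2 (MvPolynomial.funext fun b => by rw [hcon b, map_zero])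
  rw [map_mul, eval_X] at hb
  have hb1 := left_ne_zero_of_mul hb
  have hb2 := right_ne_zero_of_mul hb
  choose a ha using fun i => IsLocalRing.residue_surjective (b i)
  refine ⟨a, ?_, ?_⟩
  · by_contra hcon
    apply hb2
    rw [← ha 0]
    exact (IsLocalRing.residue_eq_zero_iff _).2 ((IsLocalRing.mem_maximalIdeal _).2 hcon)
  · by_contra hcon
    apply hb1
    have e : eval b (map (IsLocalRing.residue S) F) = IsLocalRing.residue S (eval a F) := by
      have hab : b = fun i => IsLocalRing.residue S (a i) := funext fun i => (ha i).symm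
      rw [hab, eval_map]
      exact (eval₂_comp_left (IsLocalRing.residue S) (RingHom.id S) a F).symm
    rw [e]
    exact (IsLocalRing.residue_eq_zero_iff _).2 ((IsLocalRing.mem_maximalIdeal _).2 hcon)

theorem red0 (S : Type) [CommRing S] [IsLocalRing S] [IsNoetherianRing S]
    [Infinite (IsLocalRing.ResidueField S)] (m : ℕ) (x : Fin (m + 1) → S)
    (hx : IsRed x) (hA : ¬ AnInd x) : ∃ x' : Fin m → S, IsRed x' := by
  unfold AnInd at hA
  push Not at hA
  obtain ⟨D, F, hF, hFx, n, hn⟩ := hA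
  obtain ⟨a, ha0, haF⟩ := point F n hn
  obtain ⟨hxm, r, hr⟩ := hx
  let x' : Fin m → S := fun i => a 0 * x i.succ - a i.succ * x 0
  generalize hM : IsLocalRing.maximalIdeal S = M at *
  generalize hJ : Ideal.span (Set.range x) = J at *
  generalize hJ' : Ideal.span (Set.range x') = J' at *
  have hxJ : ∀ i, x i ∈ J := fun i => hJ ▸ Ideal.subset_span ⟨i, rfl⟩
  have hx'J' : ∀ i, x' i ∈ J' := fun i => hJ' ▸ Ideal.subset_span ⟨i, rfl⟩
  have hJJ : J' ≤ J := by
    rw [← hJ']
    refine Ideal.span_le.2 ?_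
    rintro _ ⟨i, rfl⟩
    exact J.sub_mem (J.mul_mem_left _ (hxJ _)) (J.mul_mem_left _ (hxJ _))
  have hJM : J ≤ M := by
    rw [← hJ]
    refine Ideal.span_le.2 ?_
    rintro _ ⟨i, rfl⟩
    exact hxm i
  have hsup : J = J' ⊔ Ideal.span {x 0} := by
    refine le_antisymm ?_ (sup_le hJJ ?_)
    · rw [← hJ]
      refine Ideal.span_le.2 ?_
      rintro _ ⟨i, rfl⟩
      have h0 : x 0 ∈ J' ⊔ Ideal.span {x 0} :=
        (le_sup_right : Ideal.span {x 0} ≤ J' ⊔ Ideal.span {x 0}) (Ideal.mem_span_singleton_self _)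
      refine Fin.cases h0 (fun j => ?_) i
      have h1 : x' j ∈ J' ⊔ Ideal.span {x 0} :=
        (le_sup_left : J' ≤ J' ⊔ Ideal.span {x 0}) (hx'J' j)
      have h2 : a 0 * x j.succ ∈ J' ⊔ Ideal.span {x 0} := by
        have e : a 0 * x j.succ = x' j + a j.succ * x 0 := by
          simp only [x']
          ring
        rw [e]
        exact Ideal.add_mem _ h1 (Ideal.mul_mem_left _ _ h0)
      exact (Ideal.unit_mul_mem_iff_mem _ ha0).1 h2
    · exact (Ideal.span_singleton_le_iff_mem _).2 (hxJ 0)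
  have hdiff : ∀ i, a 0 * x i - x 0 * a i ∈ J' := by
    intro i
    refine Fin.cases ?_ (fun j => ?_) i
    · have : a 0 * x 0 - x 0 * a 0 = 0 := by ring
      rw [this]
      exact J'.zero_mem
    · have : a 0 * x j.succ - x 0 * a j.succ = x' j := by
        simp only [x']
        ring
      rw [this]
      exact hx'J' j
  have hkey : ∀ y ∈ J, x 0 ^ D * y ∈ J' * J ^ D ⊔ M * J ^ (D + 1) := by
    intro y hy
    have h1 := eval_diff hF J J' hJJ (fun i => a 0 * x i) (fun i => x 0 * a i)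
      (fun i => J.mul_mem_left _ (hxJ i)) (fun i => J.mul_mem_right _ (hxJ 0)) hdiff y hy
    rw [eval_scale hF, eval_scale hF] at h1
    have h2 : y * (a 0 ^ D * eval x F) ∈ M * J ^ (D + 1) := by
      have e : M * J ^ (D + 1) = J * (M * J ^ D) := by
        rw [pow_succ]
        ring
      rw [e]
      exact Ideal.mul_mem_mul hy (Ideal.mul_mem_left _ _ hFx)
    have h3 : eval a F * (x 0 ^ D * y) ∈ J' * J ^ D ⊔ M * J ^ (D + 1) := by
      have e : eval a F * (x 0 ^ D * y) = y * (a 0 ^ D * eval x F)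
          - y * (a 0 ^ D * eval x F - x 0 ^ D * eval a F) := by ring
      rw [e]
      exact Ideal.sub_mem _
        ((le_sup_right : M * J ^ (D + 1) ≤ J' * J ^ D ⊔ M * J ^ (D + 1)) h2)
        ((le_sup_left : J' * J ^ D ≤ J' * J ^ D ⊔ M * J ^ (D + 1)) h1)
    exact (Ideal.unit_mul_mem_iff_mem _ haF).1 h3
  have hle : J ^ (D + 1) ≤ J' * J ^ D ⊔ M • J ^ (D + 1) := by
    refine (pow_sup J J' (x 0) hsup D).trans (sup_le le_sup_left ?_)
    rw [Ideal.span_singleton_mul_le_iff]
    exact hkey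
  have hfin : J ^ (D + 1) ≤ J' * J ^ D := by
    refine Submodule.le_of_le_smul_of_le_jacobson_bot (IsNoetherian.noetherian _) ?_ hle
    rw [IsLocalRing.jacobson_eq_maximalIdeal ⊥ bot_ne_top, hM]
  have hpow : ∀ k, M ^ (r + k) = J ^ k * M ^ r := by
    intro k
    induction k with
    | zero => simp
    | succ k ih =>
      calc M ^ (r + (k + 1)) = M ^ (r + 1) * M ^ k := by
            rw [← pow_add]
            congr 1
            omega
        _ = J * M ^ r * M ^ k := by rw [hr]
        _ = J * M ^ (r + k) := by rw [mul_assoc, ← pow_add]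
        _ = J * (J ^ k * M ^ r) := by rw [ih]
        _ = J ^ (k + 1) * M ^ r := by
            rw [pow_succ]
            ring
  refine ⟨x', ?_⟩
  unfold IsRed
  rw [hM]
  refine ⟨fun i => hJM (hJJ (hx'J' i)), r + D, ?_⟩
  rw [hJ']
  refine le_antisymm ?_ ?_
  · calc M ^ (r + D + 1) = J ^ (D + 1) * M ^ r := by rw [add_assoc, hpow]
      _ ≤ J' * J ^ D * M ^ r := Ideal.mul_mono_left hfin
      _ = J' * M ^ (r + D) := by rw [hpow, mul_assoc]
  · calc J' * M ^ (r + D) ≤ M * M ^ (r + D) := Ideal.mul_mono_left (hJJ.trans hJM)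
      _ = M ^ (r + D + 1) := by rw [pow_succ']

/-- the job RED -/
theorem red : S_RED := fun S _ _ _ _ m x hx hA => red0 S m x hx hA

end Pool.Agent.H215.FTRED
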