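import Pool.Agent.H979.GW.StmA

/-!
# GW PF: Perron-Frobenius data of a primitive matrix (helper215)
-/

set_option autoImplicit false
set_option linter.unusedSectionVars false

open Filter Topology

namespace Pool.Agent.H215

open Pool.Agent.H979.GW

namespace GWPF

variable {Q : Type} [Fintype Q] [DecidableEq Q]

/-- stochastic matrices -/
structure Sto (R : Matrix Q Q ℝ) : Prop where
  nonneg : ∀ a b, 0 ≤ R a b
  row : ∀ a, ∑ b, R a b = 1

theorem sto_one : Sto (1 : Matrix Q Q ℝ) where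
  nonneg a b := by
    rw [Matrix.one_apply]
    split_ifs <;> norm_num
  row a := by
    simp [Matrix.one_apply]

theorem sto_mul {R S : Matrix Q Q ℝ} (hR : Sto R) (hS : Sto S) : Sto (R * S) where
  nonneg a b := by
    rw [Matrix.mul_apply]
    exact Finset.sum_nonneg fun c _ => mul_nonneg (hR.nonneg a c) (hS.nonneg c b)
  row a := by
    simp only [Matrix.mul_apply]
    rw [Finset.sum_comm]
    have : ∀ c, ∑ b, R a c * S c b = R a c := fun c => by
      rw [← Finset.mul_sum, hS.row, mul_one]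
    rw [Finset.sum_congr rfl fun c _ => this c, hR.row]

theorem sto_pow {R : Matrix Q Q ℝ} (hR : Sto R) (j : ℕ) : Sto (R ^ j) := by
  induction j with
  | zero => rw [pow_zero]; exact sto_one
  | succ j ih => rw [pow_succ]; exact sto_mul ih hR

/-- mixing does not increase the distance -/
theorem mix {R : Matrix Q Q ℝ} (hR : Sto R) {g : Q → ℝ} {d : ℝ} (hg : ∀ a a', |g a - g a'| ≤ d)
    (a a' : Q) : |(∑ b, R a b * g b) - g a'| ≤ d := by
  have e : (∑ b, R a b * g b) - g a' = ∑ b, R a b * (g b - g a') := by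
    simp only [mul_sub]
    rw [Finset.sum_sub_distrib, ← Finset.sum_mul, hR.row, one_mul]
  rw [e]
  calc |∑ b, R a b * (g b - g a')| ≤ ∑ b, |R a b * (g b - g a')| := Finset.abs_sum_le_sum_abs _ _
    _ ≤ ∑ b, R a b * d := Finset.sum_le_sum fun b _ => by
        rw [abs_mul, abs_of_nonneg (hR.nonneg a b)]
        exact mul_le_mul_of_nonneg_left (hg b a') (hR.nonneg a b)
    _ = d := by rw [← Finset.sum_mul, hR.row, one_mul]

theorem mix2 {R : Matrix Q Q ℝ} (hR : Sto R) {g : Q → ℝ} {d : ℝ} (hg : ∀ a a', |g a - g a'| ≤ d)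
    (a a' : Q) : |(∑ b, R a b * g b) - ∑ b, R a' b * g b| ≤ d := by
  have e : (∑ b, R a b * g b) - ∑ c, R a' c * g c =
      -∑ c, R a' c * (g c - ∑ b, R a b * g b) := by
    simp only [mul_sub]
    rw [Finset.sum_sub_distrib, ← Finset.sum_mul, hR.row, one_mul]
    ring
  rw [e, abs_neg]
  calc |∑ c, R a' c * (g c - ∑ b, R a b * g b)|
      ≤ ∑ c, |R a' c * (g c - ∑ b, R a b * g b)| := Finset.abs_sum_le_sum_abs _ _
    _ ≤ ∑ c, R a' c * d := Finset.sum_le_sum fun c _ => by
        rw [abs_mul, abs_of_nonneg (hR.nonneg a' c), abs_sub_comm]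
        exact mul_le_mul_of_nonneg_left (mix hR hg a c) (hR.nonneg a' c)
    _ = d := by rw [← Finset.sum_mul, hR.row, one_mul]

/-- contraction -/
theorem contr [Nonempty Q] {R : Matrix Q Q ℝ} (hR : Sto R) {δ : ℝ} (hδ : δ ≤ 1)
    (h : ∀ a b, δ ≤ R a b) {g : Q → ℝ} {d : ℝ} (hg : ∀ a a', |g a - g a'| ≤ d) (a a' : Q) :
    |(∑ b, R a b * g b) - ∑ b, R a' b * g b| ≤ (1 - δ) * d := by
  obtain ⟨b1, hb1⟩ := Finite.exists_max g
  obtain ⟨b0, hb0⟩ := Finite.exists_min g
  have up : ∀ a, ∑ b, R a b * g b ≤ g b1 - δ * (g b1 - g b0) := by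
    intro a
    have e : g b1 - ∑ b, R a b * g b = ∑ b, R a b * (g b1 - g b) := by
      simp only [mul_sub]
      rw [Finset.sum_sub_distrib, ← Finset.sum_mul, hR.row, one_mul]
    have h1 : R a b0 * (g b1 - g b0) ≤ ∑ b, R a b * (g b1 - g b) :=
      Finset.single_le_sum (f := fun b => R a b * (g b1 - g b))
        (fun b _ => mul_nonneg (hR.nonneg a b) (sub_nonneg.2 (hb1 b))) (Finset.mem_univ b0)
    have h2 : δ * (g b1 - g b0) ≤ R a b0 * (g b1 - g b0) :=
      mul_le_mul_of_nonneg_right (h a b0) (sub_nonneg.2 (hb1 b0))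
    linarith
  have lo : ∀ a, g b0 ≤ ∑ b, R a b * g b := by
    intro a
    calc g b0 = ∑ b, R a b * g b0 := by rw [← Finset.sum_mul, hR.row, one_mul]
      _ ≤ ∑ b, R a b * g b := Finset.sum_le_sum fun b _ =>
          mul_le_mul_of_nonneg_left (hb0 b) (hR.nonneg a b)
  have h3 : (1 - δ) * (g b1 - g b0) ≤ (1 - δ) * d :=
    mul_le_mul_of_nonneg_left ((le_abs_self _).trans (hg b1 b0)) (by linarith)
  rw [abs_le]
  constructor
  · have := up a'
    have := lo a
    linarith
  · have := up a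
    have := lo a'
    linarith

/-- the powers converge geometrically -/
theorem stoch [Nonempty Q] {P : Matrix Q Q ℝ} (hP : Sto P) {n : ℕ} (hn : 1 ≤ n) {δ : ℝ}
    (hδ0 : 0 < δ) (hδ : δ ≤ 1 / 2) (h : ∀ a b, δ ≤ (P ^ n) a b) :
    ∃ (ν : Q → ℝ) (C r : ℝ), 0 ≤ C ∧ 0 ≤ r ∧ r < 1 ∧ (∀ b, 0 < ν b) ∧ (∑ b, ν b = 1) ∧
      (∀ b, ∑ a, ν a * P a b = ν b) ∧ ∀ j a b, |(P ^ j) a b - ν b| ≤ C * r ^ j := by
  set r : ℝ := (1 - δ) ^ ((1 : ℝ) / n) with hr
  have hn0 : (0 : ℝ) < n := by exact_mod_cast hn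
  have hr0 : 0 < r := Real.rpow_pos_of_pos (by linarith) _
  have hr1 : r < 1 := Real.rpow_lt_one (by linarith) (by linarith) (by positivity)
  have hrn : r ^ n = 1 - δ := by
    rw [hr, ← Real.rpow_natCast, ← Real.rpow_mul (by linarith)]
    rw [one_div, inv_mul_cancel₀ hn0.ne', Real.rpow_one]
  have hcol : ∀ (i j : ℕ) (a b : Q), (P ^ (i + j)) a b = ∑ c, (P ^ i) a c * (P ^ j) c b := by
    intro i j a b
    rw [pow_add, Matrix.mul_apply]
  have h0 : ∀ (b a a' : Q), |(P ^ 0) a b - (P ^ 0) a' b| ≤ 1 := by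
    intro b a a'
    rw [pow_zero, Matrix.one_apply, Matrix.one_apply]
    split_ifs <;> norm_num
  have hq : ∀ (q : ℕ) (b a a' : Q), |(P ^ (n * q)) a b - (P ^ (n * q)) a' b| ≤ (1 - δ) ^ q := by
    intro q
    induction q with
    | zero => intro b a a'; rw [mul_zero, pow_zero (1 - δ)]; exact h0 b a a'
    | succ q ih =>
      intro b a a'
      have e : n * (q + 1) = n + n * q := by ring
      rw [e, hcol, hcol, pow_succ', ]
      exact contr (sto_pow hP n) (by linarith) h (ih b) a a'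
  have hj : ∀ (j : ℕ) (b a a' : Q), |(P ^ j) a b - (P ^ j) a' b| ≤ (1 - δ)⁻¹ * r ^ j := by
    intro j b a a'
    have h1 : |(P ^ j) a b - (P ^ j) a' b| ≤ (1 - δ) ^ (j / n) := by
      have e : j = j % n + n * (j / n) := by rw [Nat.mod_add_div]
      have := mix2 (sto_pow hP (j % n)) (hq (j / n) b) a a'
      rw [← hcol, ← hcol, ← e] at this
      exact this
    refine h1.trans ?_
    have h2 : r ^ j = (1 - δ) ^ (j / n) * r ^ (j % n) := by
      rw [← hrn, ← pow_mul, ← pow_add]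
      congr 1
      rw [add_comm, Nat.mod_add_div]
    have h3 : 1 - δ ≤ r ^ (j % n) := by
      rw [← hrn]
      exact pow_le_pow_of_le_one hr0.le hr1.le (Nat.mod_lt _ hn).le
    rw [h2]
    have h4 : (0 : ℝ) < 1 - δ := by linarith
    calc (1 - δ) ^ (j / n) = (1 - δ)⁻¹ * ((1 - δ) ^ (j / n) * (1 - δ)) := by field_simp
      _ ≤ (1 - δ)⁻¹ * ((1 - δ) ^ (j / n) * r ^ (j % n)) := by gcongr
  set C : ℝ := (1 - δ)⁻¹ with hC
  have hC0 : 0 ≤ C := inv_nonneg.2 (by linarith)
  have hji : ∀ (i j : ℕ) (b a a' : Q), |(P ^ (i + j)) a b - (P ^ j) a' b| ≤ C * r ^ j := by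
    intro i j b a a'
    rw [hcol]
    exact mix (sto_pow hP i) (hj j b) a a'
  obtain ⟨a0⟩ := ‹Nonempty Q›
  have hlim : ∀ b, ∃ x : ℝ, Tendsto (fun j => (P ^ j) a0 b) atTop (𝓝 x) := by
    intro b
    refine cauchySeq_tendsto_of_complete (cauchySeq_of_le_tendsto_0 (fun N => 2 * (C * r ^ N)) ?_ ?_)
    · intro k m N hk hm
      have h1 := hji (k - N) N b a0 a0
      have h2 := hji (m - N) N b a0 a0
      rw [Nat.sub_add_cancel hk] at h1
      rw [Nat.sub_add_cancel hm] at h2
      rw [Real.dist_eq]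
      calc |(P ^ k) a0 b - (P ^ m) a0 b| ≤ |(P ^ k) a0 b - (P ^ N) a0 b| +
            |(P ^ N) a0 b - (P ^ m) a0 b| := abs_sub_le _ _ _
        _ ≤ 2 * (C * r ^ N) := by
          rw [abs_sub_comm ((P ^ N) a0 b)]
          linarith
    · have := ((tendsto_pow_atTop_nhds_zero_of_lt_one hr0.le hr1).const_mul C).const_mul 2
      simpa using this
  choose ν hν using hlim
  have hconv : ∀ j a b, |(P ^ j) a b - ν b| ≤ C * r ^ j := by
    intro j a b
    have h1 : Tendsto (fun i => |(P ^ j) a b - (P ^ (i + j)) a0 b|) atTop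
        (𝓝 |(P ^ j) a b - ν b|) :=
      (((hν b).comp (tendsto_add_atTop_nat j)).const_sub _).abs
    refine le_of_tendsto h1 (Eventually.of_forall fun i => ?_)
    rw [abs_sub_comm]
    exact hji i j b a0 a
  refine ⟨ν, C, r, hC0, hr0.le, hr1, ?_, ?_, ?_, hconv⟩
  · intro b
    have h1 := (hν b).comp (tendsto_add_atTop_nat n)
    refine lt_of_lt_of_le hδ0 (ge_of_tendsto h1 (Eventually.of_forall fun j => ?_))
    simp only [Function.comp]
    rw [hcol]
    calc δ = ∑ c, (P ^ j) a0 c * δ := by rw [← Finset.sum_mul, (sto_pow hP j).row, one_mul]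
      _ ≤ ∑ c, (P ^ j) a0 c * (P ^ n) c b := Finset.sum_le_sum fun c _ =>
          mul_le_mul_of_nonneg_left (h c b) ((sto_pow hP j).nonneg a0 c)
  · have h1 : Tendsto (fun j => ∑ b, (P ^ j) a0 b) atTop (𝓝 (∑ b, ν b)) :=
      tendsto_finsetSum _ fun b _ => hν b
    have h2 : (fun j => ∑ b, (P ^ j) a0 b) = fun _ => 1 := by
      funext j
      exact (sto_pow hP j).row a0
    rw [h2] at h1
    exact (tendsto_nhds_unique h1 tendsto_const_nhds)
  · intro b
    have h1 : Tendsto (fun j => ∑ a, (P ^ j) a0 a * P a b) atTop (𝓝 (∑ a, ν a * P a b)) :=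
      tendsto_finsetSum _ fun a _ => (hν a).mul_const _
    have h2 := (hν b).comp (tendsto_add_atTop_nat 1)
    refine tendsto_nhds_unique h1 (h2.congr fun j => ?_)
    simp only [Function.comp]
    rw [pow_succ, Matrix.mul_apply]

/-- the Doob transform -/
noncomputable def Pm (A : Matrix Q Q ℝ) (ρ : ℝ) (e : Q → ℝ) : Matrix Q Q ℝ :=
  fun a b => A a b * e b / (ρ * e a)

theorem Pm_pow {A : Matrix Q Q ℝ} {ρ : ℝ} {e : Q → ℝ} (hρ : 0 < ρ) (he : ∀ a, 0 < e a) (j : ℕ)
    (a b : Q) : (Pm A ρ e ^ j) a b = (A ^ j) a b * e b / (ρ ^ j * e a) := by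
  induction j generalizing b with
  | zero =>
    rw [pow_zero, pow_zero, Matrix.one_apply]
    split_ifs with h
    · subst h
      rw [pow_zero, one_mul]
      exact (div_self (he a).ne').symm
    · simp
  | succ j ih =>
    rw [pow_succ, pow_succ, Matrix.mul_apply, Matrix.mul_apply, Finset.sum_mul, Finset.sum_div]
    refine Finset.sum_congr rfl fun c _ => ?_
    rw [ih c]
    unfold Pm
    have h1 := (he a).ne'
    have h2 := (he c).ne'
    have h3 := hρ.ne'
    field_simp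
    ring

end GWPF

open GWPF in
theorem gw_pf (Q : Type) [Fintype Q] [DecidableEq Q] [Nonempty Q] : S_PF Q := by
  intro A ρ e hA hprim hρ he hev
  set P := Pm A ρ e with hPdef
  have hP : Sto P := by
    refine ⟨fun a b => ?_, fun a => ?_⟩
    · have := hA a b
      have := he a
      have := he b
      rw [hPdef]
      unfold Pm
      positivity
    · rw [hPdef]
      unfold Pm
      rw [← Finset.sum_div, hev a]
      have := he a
      rw [div_self (by positivity)]
  obtain ⟨n, hn1, hn⟩ : ∃ n, 1 ≤ n ∧ ∀ a b, 0 < (A ^ n) a b := by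
    obtain ⟨n, hn⟩ := hprim
    rcases Nat.eq_zero_or_pos n with h0 | h0
    · subst h0
      have hsub : ∀ a b : Q, a = b := by
        intro a b
        by_contra hne
        have := hn a b
        rw [pow_zero, Matrix.one_apply_ne hne] at this
        exact lt_irrefl _ this
      refine ⟨1, le_refl _, fun a b => ?_⟩
      rw [pow_one]
      have h1 := hev a
      have h2 : ∑ b, A a b * e b = A a b * e b := by
        rw [Finset.sum_eq_single b]
        · intro c _ hc
          exact absurd (hsub c b) hc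
        · intro h
          exact absurd (Finset.mem_univ b) h
      rw [h2] at h1
      have h3 : 0 < A a b * e b := by
        rw [h1]
        exact mul_pos hρ (he a)
      exact pos_of_mul_pos_left h3 (he b).le
    · exact ⟨n, h0, hn⟩
  have hPn : ∀ a b, 0 < (P ^ n) a b := by
    intro a b
    rw [hPdef, Pm_pow hρ he]
    have := hn a b
    have := he a
    have := he b
    positivity
  obtain ⟨δ, hδ0, hδ1, hδ⟩ : ∃ δ : ℝ, 0 < δ ∧ δ ≤ 1 / 2 ∧ ∀ a b, δ ≤ (P ^ n) a b := by
    obtain ⟨x, hx⟩ := Finite.exists_min fun q : Q × Q => (P ^ n) q.1 q.2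
    refine ⟨min ((P ^ n) x.1 x.2) (1 / 2), lt_min (hPn _ _) (by norm_num), min_le_right _ _,
      fun a b => (min_le_left _ _).trans (hx (a, b))⟩
  obtain ⟨ν, C, r, hC, hr, hr1, hν, hν1, hνP, hconv⟩ := stoch hP hn1 hδ0 hδ1 hδ
  set S1 : ℝ := ∑ a, e a with hS1
  set S2 : ℝ := ∑ b, (e b)⁻¹ with hS2
  have hS1' : ∀ a, e a ≤ S1 := fun a =>
    Finset.single_le_sum (f := e) (fun b _ => (he b).le) (Finset.mem_univ a)
  have hS20 : 0 ≤ S2 := Finset.sum_nonneg fun b _ => (inv_pos.2 (he b)).le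
  have hS10 : 0 ≤ S1 := Finset.sum_nonneg fun b _ => (he b).le
  refine ⟨fun b => ν b / e b, C * S1 * S2, r, ?_⟩
  refine ⟨he, fun a => div_pos (hν a) (he a), ?_, hev, ?_, by positivity, hr, hr1, ?_⟩
  · rw [← hν1]
    refine Finset.sum_congr rfl fun b _ => ?_
    exact div_mul_cancel₀ _ (he b).ne'
  · intro b
    have h1 := hνP b
    rw [hPdef] at h1
    unfold Pm at h1
    have h2 : ∑ a, ν a / e a * A a b = (ρ / e b) * ∑ a, ν a * (A a b * e b / (ρ * e a)) := by
      rw [Finset.mul_sum]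
      refine Finset.sum_congr rfl fun a _ => ?_
      have h3 := (he a).ne'
      have h4 := (he b).ne'
      have h5 := hρ.ne'
      field_simp
    rw [h2, h1]
    ring
  · intro ψ M hψ j a
    have hM : 0 ≤ M := (abs_nonneg _).trans (hψ a)
    have h1 : (ρ⁻¹) ^ j * (A ^ j).mulVec ψ a - (∑ b, ν b / e b * ψ b) * e a =
        e a * ∑ b, ((P ^ j) a b - ν b) * (ψ b * (e b)⁻¹) := by
      unfold Matrix.mulVec dotProduct
      rw [Finset.mul_sum, Finset.sum_mul, Finset.mul_sum, ← Finset.sum_sub_distrib]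
      refine Finset.sum_congr rfl fun b _ => ?_
      rw [hPdef, Pm_pow hρ he, inv_pow]
      have h3 := (he a).ne'
      have h4 := (he b).ne'
      have h5 := hρ.ne'
      field_simp
    rw [h1, abs_mul, abs_of_pos (he a)]
    have h2 : |∑ b, ((P ^ j) a b - ν b) * (ψ b * (e b)⁻¹)| ≤ C * r ^ j * (M * S2) := by
      calc |∑ b, ((P ^ j) a b - ν b) * (ψ b * (e b)⁻¹)|
          ≤ ∑ b, |((P ^ j) a b - ν b) * (ψ b * (e b)⁻¹)| := Finset.abs_sum_le_sum_abs _ _
        _ ≤ ∑ b, C * r ^ j * (M * (e b)⁻¹) := Finset.sum_le_sum fun b _ => by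
            rw [abs_mul, abs_mul, abs_of_pos (inv_pos.2 (he b))]
            have := inv_pos.2 (he b)
            exact mul_le_mul (hconv j a b) (mul_le_mul_of_nonneg_right (hψ b) this.le)
              (by positivity) (by positivity)
        _ = C * r ^ j * (M * S2) := by rw [← Finset.mul_sum, ← Finset.mul_sum]
    calc e a * |∑ b, ((P ^ j) a b - ν b) * (ψ b * (e b)⁻¹)| ≤ S1 * (C * r ^ j * (M * S2)) :=
          mul_le_mul (hS1' a) h2 (abs_nonneg _) hS10
      _ = C * S1 * S2 * r ^ j * M := by ring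

end Pool.Agent.H215
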